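import Pool.Agent.H6.TP.Targets2

/-!
# From the mean of the largest correlation to the mean energy (row NGN)
-/

set_option autoImplicit false

open Finset Pool.Agent.H6.N4D

namespace Pool.Agent.H35.TP

open Pool.Agent.H6.TP

theorem harm_le (X : ℕ) : ∑ n ∈ Icc 1 X, 1 / (n : ℝ) ≤ 1 + Real.log X := by
  have h := harmonic_le_one_add_log X
  rw [harmonic_eq_sum_Icc] at h
  push_cast at h
  simpa [one_div] using h

theorem ph_mono {x y : ℝ} (h : y ≤ x) : ph y ≤ ph x := by
  unfold ph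
  have h1 : max (y - 63 / 100) 0 ≤ max (x - 63 / 100) 0 := max_le_max (by linarith) le_rfl
  exact pow_le_pow_left₀ (le_max_right _ _) h1 2

theorem ph_lip {x y : ℝ} (hx : x ≤ 1) (h : y ≤ x) : ph x - ph y ≤ x - y := by
  unfold ph
  have h1 : max (y - 63 / 100) 0 ≤ max (x - 63 / 100) 0 := max_le_max (by linarith) le_rfl
  have h2 : max (x - 63 / 100) 0 - max (y - 63 / 100) 0 ≤ x - y := by
    rcases max_cases (x - 63 / 100) 0 with ⟨e1, e2⟩ | ⟨e1, e2⟩ <;>
      rcases max_cases (y - 63 / 100) 0 with ⟨e3, e4⟩ | ⟨e3, e4⟩ <;> rw [e1, e3] <;> linarith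
  have h3 : max (x - 63 / 100) 0 ≤ 1 / 2 := max_le (by linarith) (by norm_num)
  have h4 : 0 ≤ max (y - 63 / 100) 0 := le_max_right _ _
  have h5 : 0 ≤ max (x - 63 / 100) 0 := le_max_right _ _
  nlinarith

theorem pf_NGN : T_NGN := by
  classical
  intro ε hε
  set η : ℝ := min (ε / 16) (1 / 10) with hη
  have hη0 : 0 < η := lt_min (by positivity) (by norm_num)
  have hη1 : η ≤ ε / 16 := min_le_left _ _
  have hη2 : η ≤ 1 / 10 := min_le_right _ _
  refine ⟨η, η, η, Real.exp (4 / ε + 4), hη0, hη0, hη0, ?_⟩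
  intro X a E hX ha hE hS hA
  have hX0 : (0 : ℝ) < X := lt_of_lt_of_le (Real.exp_pos _) hX
  set L : ℝ := Real.log X with hL
  have hLb : 4 / ε + 4 ≤ L := by
    rw [hL, Real.le_log_iff_exp_le hX0]
    exact hX
  have hε4 : 0 < 4 / ε := by positivity
  have hL4 : 4 ≤ L := by linarith
  have hεL : 4 ≤ ε * L := by
    have h1 : 4 / ε ≤ L := by linarith
    rw [div_le_iff₀ hε] at h1
    linarith
  set p : ℝ := 2 / Real.pi with hp
  have hpi := Real.pi_gt_three
  have hp0 : 0 < p := by positivity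
  have hp1 : p ≤ 2 / 3 := by
    rw [hp, div_le_div_iff₀ Real.pi_pos (by norm_num)]
    linarith
  have hps : p + η ≤ 1 := by linarith
  have hph0 : 0 ≤ ph p := by unfold ph; positivity
  have hph1 : ph p ≤ 1 / 4 := by
    unfold ph
    have h3 : max (p - 63 / 100) 0 ≤ 1 / 2 := max_le (by linarith) (by norm_num)
    have h4 : 0 ≤ max (p - 63 / 100) 0 := le_max_right _ _
    nlinarith
  have hp6 : (1 : ℝ) / 2 ≤ p := by
    rw [hp, div_le_div_iff₀ (by norm_num) Real.pi_pos]
    have := Real.pi_le_four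
    linarith
  have hH := harm_le X
  have hsplit1 := Finset.sum_filter_add_sum_filter_not (Icc 1 X) E (fun n => 1 / (n : ℝ))
  have hsplit2 := Finset.sum_filter_add_sum_filter_not (Icc 1 X) E (fun n => a n / n)
  have hsplit3 := Finset.sum_filter_add_sum_filter_not (Icc 1 X) E (fun n => ph (a n) / n)
  have hE0 : 0 ≤ ∑ n ∈ (Icc 1 X).filter E, 1 / (n : ℝ) :=
    Finset.sum_nonneg fun n _ => by positivity
  have hE1 : 0 ≤ ∑ n ∈ (Icc 1 X).filter E, ph (a n) / n :=
    Finset.sum_nonneg fun n _ => by unfold ph; positivity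
  have hE2 : ∑ n ∈ (Icc 1 X).filter E, a n / n ≤ ∑ n ∈ (Icc 1 X).filter E, 1 / (n : ℝ) := by
    apply Finset.sum_le_sum
    intro n _
    have := (ha n).2
    gcongr
  have hN : ∑ n ∈ (Icc 1 X).filter (fun n => ¬ E n), ph (a n) / n ≥
      -(p + η - ph p) * ∑ n ∈ (Icc 1 X).filter (fun n => ¬ E n), 1 / (n : ℝ) +
        ∑ n ∈ (Icc 1 X).filter (fun n => ¬ E n), a n / n := by
    rw [Finset.mul_sum, ← Finset.sum_add_distrib]
    apply Finset.sum_le_sum
    intro n hn
    rw [Finset.mem_filter, Finset.mem_Icc] at hn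
    have h1 := hE n hn.1.1 hn.2
    have h2 := ph_lip hps h1
    have h3 : ph p ≤ ph (p + η) := ph_mono (by linarith)
    have hn0 : (0 : ℝ) < n := by exact_mod_cast hn.1.1
    have h4 : -(p + η - ph p) * (1 / (n : ℝ)) + a n / n = (ph p - (p + η) + a n) / n := by ring
    rw [h4]
    have h5 : ph p - (p + η) + a n ≤ ph (a n) := by linarith
    gcongr
  have h6 : 0 ≤ p + η - ph p := by linarith
  have h7 : ∑ n ∈ (Icc 1 X).filter (fun n => ¬ E n), 1 / (n : ℝ) ≤ 1 + L := by linarith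
  have h8 : (p + η - ph p) * ∑ n ∈ (Icc 1 X).filter (fun n => ¬ E n), 1 / (n : ℝ) ≤
      (p + η - ph p) * (1 + L) := mul_le_mul_of_nonneg_left h7 h6
  have h9 : ∑ n ∈ Icc 1 X, ph (a n) / n ≥
      -((p + η - ph p) * (1 + L)) + ((p - η) * L - η * L) := by
    have e1 : ∑ n ∈ (Icc 1 X).filter (fun n => ¬ E n), a n / n ≥ (p - η) * L - η * L := by
      linarith
    linarith
  have h10 : η * L ≤ ε / 16 * L := by gcongr
  nlinarith

end Pool.Agent.H35.TP
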